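import Pool.Agent.MP_88bd62_nt.Data

namespace Pool.Agent.MP_88bd62_nt

theorem chunk0 : chunk 500 1 0 79228162514264337593543950336 0
    1982 78844624589371917620784024503 7786328322623567260816326674 z0 z1 z0 l1 = true := by
  decide +kernel

end Pool.Agent.MP_88bd62_nt
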