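import Pool.Agent.MP_88bd62_nt.Data

namespace Pool.Agent.MP_88bd62_nt

theorem chunk1 : chunk 500 501 1982 78844624589371917620784024503 7786328322623567260816326674
    3980 78808579719718730703256499121 8143064407667321905189666604 z1 z2 l1 l2 = true := by
  decide +kernel

end Pool.Agent.MP_88bd62_nt
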