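import Pool.Agent.MP_88bd62_nt.Ch.C7

namespace Pool.Agent.MP_88bd62_nt

theorem chunk10 : chunk 500 5001 19975 62296324509507762365113458140 48951707712732384616724459642
    21975 77066780305420839820342200079 18379692835917561933896520515 z10 z11 l10 l11 = true := by
  decide +kernel

end Pool.Agent.MP_88bd62_nt
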