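import Pool.Agent.MP_88bd62_nt.Ch.C8

namespace Pool.Agent.MP_88bd62_nt

theorem chunk11 : chunk 500 5501 21975 77066780305420839820342200079 18379692835917561933896520515
    23974 12636650271952627920022078079 78213916954024495142243499127 z11 z12 l11 l12 = true := by
  decide +kernel

end Pool.Agent.MP_88bd62_nt
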