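import Pool.Agent.MP_88bd62_nt.Ch.C9

namespace Pool.Agent.MP_88bd62_nt

theorem chunk12 : chunk 500 6001 23974 12636650271952627920022078079 78213916954024495142243499127
    25974 39566492526849920617520012785 68641054803298369552441063907 z12 z13 l12 l13 = true := by
  decide +kernel

end Pool.Agent.MP_88bd62_nt
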