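import Pool.Agent.MP_88bd62_nt.Ch.C10

namespace Pool.Agent.MP_88bd62_nt

theorem chunk13 : chunk 500 6501 25974 39566492526849920617520012785 68641054803298369552441063907
    27974 59977272068860504881125396441 51767060671478792393889139196 z13 z14 l13 l14 = true := by
  decide +kernel

end Pool.Agent.MP_88bd62_nt
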