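import Pool.Agent.MP_88bd62_nt.Ch.C11

namespace Pool.Agent.MP_88bd62_nt

theorem chunk14 : chunk 500 7001 27974 59977272068860504881125396441 51767060671478792393889139196
    29974 72992487627568112318877735306 30809064986234113787733533584 z14 z15 l14 l15 = true := by
  decide +kernel

end Pool.Agent.MP_88bd62_nt
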