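import Pool.Agent.MP_88bd62_nt.Ch.C12

namespace Pool.Agent.MP_88bd62_nt

theorem chunk15 : chunk 500 7501 29974 72992487627568112318877735306 30809064986234113787733533584
    31974 78775685028195409420905401794 8455364198260794343876183581 z15 z16 l15 l16 = true := by
  decide +kernel

end Pool.Agent.MP_88bd62_nt
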