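import Pool.Agent.MP_88bd62_nt.Ch.C13

namespace Pool.Agent.MP_88bd62_nt

theorem chunk16 : chunk 500 8001 31974 78775685028195409420905401794 8455364198260794343876183581
    33973 13233276034534479645618109511 78115185084466747271162512990 z16 z17 l16 l17 = true := by
  decide +kernel

end Pool.Agent.MP_88bd62_nt
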