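import Pool.Agent.MP_88bd62_nt.Ch.C14

namespace Pool.Agent.MP_88bd62_nt

theorem chunk17 : chunk 500 8501 33973 13233276034534479645618109511 78115185084466747271162512990
    35973 32800668608920036818823787281 72119469453085194513471608706 z17 z18 l17 l18 = true := by
  decide +kernel

end Pool.Agent.MP_88bd62_nt
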