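import Pool.Agent.MP_88bd62_nt.Ch.C15

namespace Pool.Agent.MP_88bd62_nt

theorem chunk18 : chunk 500 9001 35973 32800668608920036818823787281 72119469453085194513471608706
    37973 49315774815267201547230958585 62008516267981594093587611311 z18 z19 l18 l19 = true := by
  decide +kernel

end Pool.Agent.MP_88bd62_nt
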