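import Pool.Agent.MP_88bd62_nt.Ch.C16

namespace Pool.Agent.MP_88bd62_nt

theorem chunk19 : chunk 500 9501 37973 49315774815267201547230958585 62008516267981594093587611311
    39973 62274134764233692359355462448 48979933388610702297571003122 z19 z20 l19 l20 = true := by
  decide +kernel

end Pool.Agent.MP_88bd62_nt
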