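import Pool.Agent.MP_88bd62_nt.Data

namespace Pool.Agent.MP_88bd62_nt

theorem chunk2 : chunk 500 1001 3980 78808579719718730703256499121 8143064407667321905189666604
    5978 12813790700727848022894341396 78185091310713587274350228662 z2 z3 l2 l3 = true := by
  decide +kernel

end Pool.Agent.MP_88bd62_nt
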