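import Pool.Agent.MP_88bd62_nt.Ch.C17

namespace Pool.Agent.MP_88bd62_nt

theorem chunk20 : chunk 500 10001 39973 62274134764233692359355462448 48979933388610702297571003122
    41973 71500072899074607047273568764 34129771619711985792311496038 z20 z21 l20 l21 = true := by
  decide +kernel

end Pool.Agent.MP_88bd62_nt
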