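import Pool.Agent.MP_88bd62_nt.Ch.C18

namespace Pool.Agent.MP_88bd62_nt

theorem chunk21 : chunk 500 10501 41973 71500072899074607047273568764 34129771619711985792311496038
    43973 77059201762905532049157843016 18411440982457014915775666488 z21 z22 l21 l22 = true := by
  decide +kernel

end Pool.Agent.MP_88bd62_nt
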