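import Pool.Agent.MP_88bd62_nt.Ch.C19

namespace Pool.Agent.MP_88bd62_nt

theorem chunk22 : chunk 500 11001 43973 77059201762905532049157843016 18411440982457014915775666488
    45973 79184828660360339008198103649 2620046834706705813382142225 z22 z23 l22 l23 = true := by
  decide +kernel

end Pool.Agent.MP_88bd62_nt
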