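import Pool.Agent.MP_88bd62_nt.Ch.C20

namespace Pool.Agent.MP_88bd62_nt

theorem chunk23 : chunk 500 11501 45973 79184828660360339008198103649 2620046834706705813382142225
    47972 12607111927059328049914411218 78218683600820585690792601406 z23 z24 l23 l24 = true := by
  decide +kernel

end Pool.Agent.MP_88bd62_nt
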