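import Pool.Agent.MP_88bd62_nt.Ch.C21

namespace Pool.Agent.MP_88bd62_nt

theorem chunk24 : chunk 500 12001 47972 12607111927059328049914411218 78218683600820585690792601406
    49972 26780406481481180368623306576 74564814517796002990863057577 z24 z25 l24 l25 = true := by
  decide +kernel

end Pool.Agent.MP_88bd62_nt
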