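import Pool.Agent.MP_88bd62_nt.Ch.C22

namespace Pool.Agent.MP_88bd62_nt

theorem chunk25 : chunk 500 12501 49972 26780406481481180368623306576 74564814517796002990863057577
    51972 39542561654862810819139251577 68654843624889672261749446469 z25 z26 l25 l26 = true := by
  decide +kernel

end Pool.Agent.MP_88bd62_nt
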