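import Pool.Agent.MP_88bd62_nt.Ch.C23

namespace Pool.Agent.MP_88bd62_nt

theorem chunk26 : chunk 500 13001 51972 39542561654862810819139251577 68654843624889672261749446469
    53972 50651111688628723909746551002 60922628144990096527280237178 z26 z27 l26 l27 = true := by
  decide +kernel

end Pool.Agent.MP_88bd62_nt
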