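import Pool.Agent.MP_88bd62_nt.Ch.C24

namespace Pool.Agent.MP_88bd62_nt

theorem chunk27 : chunk 500 13501 53972 50651111688628723909746551002 60922628144990096527280237178
    55972 59960511653458593859671145818 51786472921431296794821424913 z27 z28 l27 l28 = true := by
  decide +kernel

end Pool.Agent.MP_88bd62_nt
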