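import Pool.Agent.MP_88bd62_nt.Ch.C25

namespace Pool.Agent.MP_88bd62_nt

theorem chunk28 : chunk 500 14001 55972 59960511653458593859671145818 51786472921431296794821424913
    57972 67405046448841050263104221843 41637260339943853087344138962 z28 z29 l28 l29 = true := by
  decide +kernel

end Pool.Agent.MP_88bd62_nt
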