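import Pool.Agent.MP_88bd62_nt.Ch.C26

namespace Pool.Agent.MP_88bd62_nt

theorem chunk29 : chunk 500 14501 57972 67405046448841050263104221843 41637260339943853087344138962
    59972 72983176041915267718056954212 30831116590572681779199095587 z29 z30 l29 l30 = true := by
  decide +kernel

end Pool.Agent.MP_88bd62_nt
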