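import Pool.Agent.MP_88bd62_nt.Ch.C0

namespace Pool.Agent.MP_88bd62_nt

theorem chunk3 : chunk 500 1501 5978 12813790700727848022894341396 78185091310713587274350228662
    7978 78789937854393131282189017244 8321503967886397580770026175 z3 z4 l3 l4 = true := by
  decide +kernel

end Pool.Agent.MP_88bd62_nt
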