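import Pool.Agent.MP_88bd62_nt.Ch.C27

namespace Pool.Agent.MP_88bd62_nt

theorem chunk30 : chunk 500 15001 59972 72983176041915267718056954212 30831116590572681779199095587
    61972 76743622131153864800491037124 19685481898529980457293466517 z30 z31 l30 l31 = true := by
  decide +kernel

end Pool.Agent.MP_88bd62_nt
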