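import Pool.Agent.MP_88bd62_nt.Ch.C28

namespace Pool.Agent.MP_88bd62_nt

theorem chunk31 : chunk 500 15501 61972 76743622131153864800491037124 19685481898529980457293466517
    63972 78773286920504723762864665755 8477676752891690857384085438 z31 z32 l31 l32 = true := by
  decide +kernel

end Pool.Agent.MP_88bd62_nt
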