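import Pool.Agent.MP_88bd62_nt.Ch.C29

namespace Pool.Agent.MP_88bd62_nt

theorem chunk32 : chunk 500 16001 63972 78773286920504723762864665755 8477676752891690857384085438
    65971 2554750831714698178187293990 79186962207010655392002244247 z32 z33 l32 l33 = true := by
  decide +kernel

end Pool.Agent.MP_88bd62_nt
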