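import Pool.Agent.MP_88bd62_nt.Ch.C30

namespace Pool.Agent.MP_88bd62_nt

theorem chunk33 : chunk 500 16501 65971 2554750831714698178187293990 79186962207010655392002244247
    67971 13212451157794331481708565581 78118710113452206301541976883 z33 z34 l33 l34 = true := by
  decide +kernel

end Pool.Agent.MP_88bd62_nt
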