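import Pool.Agent.MP_88bd62_nt.Ch.C31

namespace Pool.Agent.MP_88bd62_nt

theorem chunk34 : chunk 500 17001 67971 13212451157794331481708565581 78118710113452206301541976883
    69971 23331894901883376892327712536 75714756921449264306574522971 z34 z35 l34 l35 = true := by
  decide +kernel

end Pool.Agent.MP_88bd62_nt
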