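import Pool.Agent.MP_88bd62_nt.Ch.C32

namespace Pool.Agent.MP_88bd62_nt

theorem chunk35 : chunk 500 17501 69971 23331894901883376892327712536 75714756921449264306574522971
    71971 32782509559920866719125341449 72127725614637106555702852431 z35 z36 l35 l36 = true := by
  decide +kernel

end Pool.Agent.MP_88bd62_nt
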