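import Pool.Agent.MP_88bd62_nt.Ch.C33

namespace Pool.Agent.MP_88bd62_nt

theorem chunk36 : chunk 500 18001 71971 32782509559920866719125341449 72127725614637106555702852431
    73971 41463565573315188790254142122 67512032004184796783381886286 z36 z37 l36 l37 = true := by
  decide +kernel

end Pool.Agent.MP_88bd62_nt
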