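import Pool.Agent.MP_88bd62_nt.Ch.C34

namespace Pool.Agent.MP_88bd62_nt

theorem chunk37 : chunk 500 18501 73971 41463565573315188790254142122 67512032004184796783381886286
    75971 49300982741887412745970912385 62020277620071971709206559873 z37 z38 l37 l38 = true := by
  decide +kernel

end Pool.Agent.MP_88bd62_nt
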