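import Pool.Agent.MP_88bd62_nt.Ch.C35

namespace Pool.Agent.MP_88bd62_nt

theorem chunk38 : chunk 500 19001 75971 49300982741887412745970912385 62020277620071971709206559873
    77971 56244177595702696200321890898 55800485857828654442101864482 z38 z39 l38 l39 = true := by
  decide +kernel

end Pool.Agent.MP_88bd62_nt
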