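import Pool.Agent.MP_88bd62_nt.Ch.C36

namespace Pool.Agent.MP_88bd62_nt

theorem chunk39 : chunk 500 19501 77971 56244177595702696200321890898 55800485857828654442101864482
    79971 62263034263025345588925477770 48994043512941577268701722473 z39 z40 l39 l40 = true := by
  decide +kernel

end Pool.Agent.MP_88bd62_nt
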