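import Pool.Agent.MP_88bd62_nt.Ch.C1

namespace Pool.Agent.MP_88bd62_nt

theorem chunk4 : chunk 500 2001 7978 78789937854393131282189017244 8321503967886397580770026175
    9977 62340658970522546010212432274 48895234680975686843979320613 z4 z5 l4 l5 = true := by
  decide +kernel

end Pool.Agent.MP_88bd62_nt
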