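import Pool.Agent.MP_88bd62_nt.Ch.C2

namespace Pool.Agent.MP_88bd62_nt

theorem chunk5 : chunk 500 2501 9977 62340658970522546010212432274 48895234680975686843979320613
    11976 12695714169332758133695154727 78204351395029702644324712756 z5 z6 l5 l6 = true := by
  decide +kernel

end Pool.Agent.MP_88bd62_nt
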