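import Pool.Agent.MP_88bd62_nt.Ch.C3

namespace Pool.Agent.MP_88bd62_nt

theorem chunk6 : chunk 500 3001 11976 12695714169332758133695154727 78204351395029702644324712756
    13976 60010770456389712002131609028 51728224062084177451768527041 z6 z7 l6 l7 = true := by
  decide +kernel

end Pool.Agent.MP_88bd62_nt
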