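import Pool.Agent.MP_88bd62_nt.Ch.C4

namespace Pool.Agent.MP_88bd62_nt

theorem chunk7 : chunk 500 3501 13976 60010770456389712002131609028 51728224062084177451768527041
    15976 78780461836679707831533108848 8410741238804869943820934319 z7 z8 l7 l8 = true := by
  decide +kernel

end Pool.Agent.MP_88bd62_nt
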