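import Pool.Agent.MP_88bd62_nt.Ch.C5

namespace Pool.Agent.MP_88bd62_nt

theorem chunk8 : chunk 500 4001 15976 78780461836679707831533108848 8410741238804869943820934319
    17975 32836977442801550849982856187 72102944792897487420472380018 z8 z9 l8 l9 = true := by
  decide +kernel

end Pool.Agent.MP_88bd62_nt
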