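import Pool.Agent.MP_88bd62_nt.Ch.C6

namespace Pool.Agent.MP_88bd62_nt

theorem chunk9 : chunk 500 4501 17975 32836977442801550849982856187 72102944792897487420472380018
    19975 62296324509507762365113458140 48951707712732384616724459642 z9 z10 l9 l10 = true := by
  decide +kernel

end Pool.Agent.MP_88bd62_nt
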