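import Pool.Agent.MP_88bd62_nt.Ch.C38

namespace Pool.Agent.MP_88bd62_nt

theorem tail_ok : tailC 40002 79971 62263034263025345588925477770 48994043512941577268701722473 z0 yD = true := by
  decide +kernel

theorem omega_ok : omegaC 152300296801170336156069535730 z0 wD = true := by
  decide +kernel

theorem fin_ok : finC 9732 z40 l40 yD wD = true := by
  decide +kernel

end Pool.Agent.MP_88bd62_nt
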